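import Pool.Agent.Helper79_WRA.StmtB
import Pool.Agent.Helper44_WRA.Kill
import Pool.Agent.Helper83_WRA.Pos

/-!
WRA, module DZT: Frobenius twists of characters of defect zero.
-/

open scoped BigOperators

noncomputable section

namespace Pool.Agent.Helper79_WRA.H47

open Pool.Agent.Helper51_AWC Pool.Agent.Helper79_WRA

section

variable {G : Type} [Group G]

open Classical in
/-- the indicator function of a class -/
def ic (A : ConjClasses G) : G → ℂ := fun x => if ConjClasses.mk x = A then 1 else 0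

theorem mk_conj (x y : G) : ConjClasses.mk (y * x * y⁻¹) = ConjClasses.mk x := by
  rw [ConjClasses.mk_eq_mk_iff_isConj]
  exact (isConj_iff.2 ⟨y, rfl⟩).symm

theorem ic_class (A : ConjClasses G) (x y : G) : ic A (y * x * y⁻¹) = ic A x := by
  unfold ic
  rw [mk_conj]

theorem ic_integral (A : ConjClasses G) (x : G) : IsIntegral ℤ (ic A x) := by
  unfold ic
  split_ifs
  · exact isIntegral_one
  · exact isIntegral_zero

theorem mk_out (A : ConjClasses G) : ConjClasses.mk (Quotient.out A) = A := Quotient.out_eq A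

theorem class_out {a : G → ℂ} (ha : ∀ x y, a (y * x * y⁻¹) = a x) (x : G) :
    a x = a (Quotient.out (ConjClasses.mk x)) := by
  have h : IsConj (Quotient.out (ConjClasses.mk x)) x :=
    ConjClasses.mk_eq_mk_iff_isConj.1 (mk_out _)
  obtain ⟨c, hc⟩ := isConj_iff.1 h
  conv_lhs => rw [← hc]
  rw [ha]

/-- a class function as a combination of indicators -/
theorem class_sum [Fintype (ConjClasses G)] {a : G → ℂ} (ha : ∀ x y, a (y * x * y⁻¹) = a x)
    (x : G) : a x = ∑ A : ConjClasses G, a (Quotient.out A) * ic A x := by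
  classical
  rw [Finset.sum_eq_single_of_mem (ConjClasses.mk x) (Finset.mem_univ _)]
  · unfold ic
    rw [if_pos rfl, mul_one]
    exact class_out ha x
  · intro B _ hB
    unfold ic
    rw [if_neg (fun h => hB h.symm), mul_zero]

variable [Fintype G]

theorem conv_bilin [Fintype (ConjClasses G)] {a b : G → ℂ}
    (ha : ∀ x y, a (y * x * y⁻¹) = a x) (hb : ∀ x y, b (y * x * y⁻¹) = b x) (x : G) :
    conv a b x = ∑ A : ConjClasses G, ∑ B : ConjClasses G,
      a (Quotient.out A) * b (Quotient.out B) * conv (ic A) (ic B) x := by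
  simp_rw [H44.conv_eq]
  have h : ∀ y : G, a y * b (y⁻¹ * x) = ∑ A : ConjClasses G, ∑ B : ConjClasses G,
      a (Quotient.out A) * b (Quotient.out B) * (ic A y * ic B (y⁻¹ * x)) := by
    intro y
    conv_lhs => rw [class_sum ha y, class_sum hb (y⁻¹ * x), Finset.sum_mul_sum]
    refine Finset.sum_congr rfl fun A _ => Finset.sum_congr rfl fun B _ => ?_
    ring
  simp_rw [h]
  rw [Finset.sum_comm]
  refine Finset.sum_congr rfl fun A _ => ?_
  rw [Finset.sum_comm]
  refine Finset.sum_congr rfl fun B _ => ?_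
  rw [Finset.mul_sum]

theorem conv_ic_nat (A B : ConjClasses G) (x : G) : ∃ m : ℕ, conv (ic A) (ic B) x = m := by
  classical
  have h : ∀ (C : ConjClasses G) (y : G), ∃ m : ℕ, ic C y = m := by
    intro C y
    unfold ic
    split_ifs
    · exact ⟨1, Nat.cast_one.symm⟩
    · exact ⟨0, Nat.cast_zero.symm⟩
  choose f hf using h
  refine ⟨∑ y : G, f A y * f B (y⁻¹ * x), ?_⟩
  rw [H44.conv_eq, Nat.cast_sum]
  refine Finset.sum_congr rfl fun y _ => ?_
  rw [hf, hf, Nat.cast_mul]

theorem val_ic [Fintype (ConjClasses G)] (A : ConjClasses G) {ξ : G → ℂ} (hξ : ξ ∈ Irr G) :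
    val (ic A) ξ = omega (MonoidHom.id G) ξ (Quotient.out A) := by
  classical
  rw [H44.val_classes hξ (ic_class A), Finset.sum_eq_single_of_mem A (Finset.mem_univ _)]
  · unfold ic
    rw [if_pos (mk_out A), mul_one]
  · intro B _ hB
    unfold ic
    rw [if_neg (fun h => hB ((mk_out B).symm.trans h)), mul_zero]

/-- the functional -/
def Wq [Fintype (ConjClasses G)] (ξ : G → ℂ) (q : ℕ) : (G → ℂ) →ₗ[ℂ] ℂ where
  toFun a := ∑ K : ConjClasses G, a (Quotient.out K) *
    (omega (MonoidHom.id G) ξ (Quotient.out K)) ^ q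
  map_add' a b := by
    rw [← Finset.sum_add_distrib]
    refine Finset.sum_congr rfl fun K _ => ?_
    rw [Pi.add_apply]; ring
  map_smul' c a := by
    rw [RingHom.id_apply, smul_eq_mul, Finset.mul_sum]
    refine Finset.sum_congr rfl fun K _ => ?_
    rw [Pi.smul_apply, smul_eq_mul]; ring

omit [Fintype G] in
theorem Wq_apply [Fintype (ConjClasses G)] (ξ : G → ℂ) (q : ℕ) (a : G → ℂ) :
    Wq ξ q a = ∑ K : ConjClasses G, a (Quotient.out K) *
      (omega (MonoidHom.id G) ξ (Quotient.out K)) ^ q := rfl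

omit [Fintype G] in
theorem Wq_ic [Fintype (ConjClasses G)] (ξ : G → ℂ) (q : ℕ) (A : ConjClasses G) :
    Wq ξ q (ic A) = (omega (MonoidHom.id G) ξ (Quotient.out A)) ^ q := by
  classical
  rw [Wq_apply, Finset.sum_eq_single_of_mem A (Finset.mem_univ _)]
  · unfold ic
    rw [if_pos (mk_out A), one_mul]
  · intro B _ hB
    unfold ic
    rw [if_neg (fun h => hB ((mk_out B).symm.trans h)), zero_mul]

theorem Wq_integral [Fintype (ConjClasses G)] {ξ : G → ℂ} (hξ : ξ ∈ Irr G) (q : ℕ) {a : G → ℂ}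
    (hi : ∀ x, IsIntegral ℤ (a x)) : IsIntegral ℤ (Wq ξ q a) := by
  rw [Wq_apply]
  exact IsIntegral.sum _ fun K _ => (hi _).mul ((omega_integral _ hξ _).pow q)

variable {M : Ideal (integralClosure ℤ ℂ)}

theorem red_natCast (m : ℕ) : red M (m : ℂ) = (m : FF M) := by
  induction m with
  | zero => rw [Nat.cast_zero, Nat.cast_zero, red_zero]
  | succ m ih =>
    rw [Nat.cast_succ, Nat.cast_succ, red_add (AI.natCast m) isIntegral_one, ih, red_one]

theorem charP_FF {ℓ : ℕ} [Fact ℓ.Prime] [M.IsMaximal] (hℓ : (ℓ : integralClosure ℤ ℂ) ∈ M) :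
    CharP (FF M) ℓ := by
  have h0 : ((ℓ : ℕ) : FF M) = 0 := by
    have h1 : Ideal.Quotient.mk M (ℓ : integralClosure ℤ ℂ) = 0 :=
      Ideal.Quotient.eq_zero_iff_mem.2 hℓ
    rwa [map_natCast] at h1
  have : Nontrivial (FF M) := Ideal.Quotient.nontrivial_iff.2 (Ideal.IsMaximal.ne_top ‹_›)
  exact (CharP.charP_iff_prime_eq_zero (R := FF M) (Fact.out : ℓ.Prime)).2 h0

theorem natCast_pow {ℓ : ℕ} [hp : Fact ℓ.Prime] {F : Type*} [CommRing F] [CharP F ℓ] (m n : ℕ) :
    ((m : F)) ^ (ℓ ^ n) = m := by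
  induction m with
  | zero =>
    rw [Nat.cast_zero, zero_pow (pow_ne_zero _ hp.out.ne_zero)]
  | succ m ih =>
    rw [Nat.cast_succ, add_pow_char_pow, ih, one_pow]

/-- multiplicativity on the indicators -/
theorem Wq_conv_ic [Fintype (ConjClasses G)] {ℓ : ℕ} [Fact ℓ.Prime] [M.IsMaximal]
    (hℓ : (ℓ : integralClosure ℤ ℂ) ∈ M) {ξ : G → ℂ} (hξ : ξ ∈ Irr G) (n : ℕ)
    (A B : ConjClasses G) :
    Cong M (Wq ξ (ℓ ^ n) (conv (ic A) (ic B)))
      ((omega (MonoidHom.id G) ξ (Quotient.out A)) ^ (ℓ ^ n) *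
        (omega (MonoidHom.id G) ξ (Quotient.out B)) ^ (ℓ ^ n)) := by
  have hch := charP_FF (M := M) hℓ
  choose N hN using conv_ic_nat A B
  have hci : ∀ x, IsIntegral ℤ (conv (ic A) (ic B) x) :=
    H44.conv_integral (ic_integral A) (ic_integral B)
  have hw : ∀ g, IsIntegral ℤ (omega (MonoidHom.id G) ξ g) := fun g => omega_integral _ hξ g
  obtain ⟨w, hwd⟩ : ∃ w : ConjClasses G → ℂ, ∀ K, w K = omega (MonoidHom.id G) ξ
    (Quotient.out K) := ⟨_, fun _ => rfl⟩
  obtain ⟨c, hcd⟩ : ∃ c : ConjClasses G → ℂ, ∀ K, c K = conv (ic A) (ic B)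
    (Quotient.out K) := ⟨_, fun _ => rfl⟩
  have hwI : ∀ K, IsIntegral ℤ (w K) := fun K => by rw [hwd]; exact hw _
  have hcI : ∀ K, IsIntegral ℤ (c K) := fun K => by rw [hcd]; exact hci _
  have e1 : Wq ξ (ℓ ^ n) (conv (ic A) (ic B)) = ∑ K : ConjClasses G, c K * w K ^ (ℓ ^ n) := by
    rw [Wq_apply]
    exact Finset.sum_congr rfl fun K _ => by rw [hwd, hcd]
  have e2 : w A * w B = ∑ K : ConjClasses G, w K * c K := by
    rw [hwd, hwd, ← val_ic A hξ, ← val_ic B hξ, ← H44.val_conv hξ (ic_class A),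
      H44.val_classes hξ (H44.conv_class (ic_class A) (ic_class B))]
    exact Finset.sum_congr rfl fun K _ => by rw [hwd, hcd]
  rw [e1, ← hwd A, ← hwd B, ← mul_pow, e2]
  rw [← red_eq_iff (IsIntegral.sum _ fun K _ => (hcI K).mul ((hwI K).pow _))
    ((IsIntegral.sum _ fun K _ => (hwI K).mul (hcI K)).pow _),
    red_pow (IsIntegral.sum _ fun K _ => (hwI K).mul (hcI K)),
    red_sum _ _ (fun K _ => (hwI K).mul (hcI K)), sum_pow_char_pow,
    red_sum _ _ (fun K _ => (hcI K).mul ((hwI K).pow _))]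
  refine Finset.sum_congr rfl fun K _ => ?_
  have e3 : c K = (N (Quotient.out K) : ℂ) := by rw [hcd, hN]
  rw [e3, red_mul (AI.natCast _) ((hwI K).pow _), red_mul (hwI K) (AI.natCast _), mul_pow,
    red_natCast, natCast_pow, red_pow (hwI K), mul_comm]

theorem Wq_conv [Fintype (ConjClasses G)] {ℓ : ℕ} [Fact ℓ.Prime] [M.IsMaximal]
    (hℓ : (ℓ : integralClosure ℤ ℂ) ∈ M) {ξ : G → ℂ} (hξ : ξ ∈ Irr G) (n : ℕ) {a b : G → ℂ}
    (ha : ∀ x y, a (y * x * y⁻¹) = a x) (hai : ∀ x, IsIntegral ℤ (a x))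
    (hb : ∀ x y, b (y * x * y⁻¹) = b x) (hbi : ∀ x, IsIntegral ℤ (b x)) :
    Cong M (Wq ξ (ℓ ^ n) (conv a b)) (Wq ξ (ℓ ^ n) a * Wq ξ (ℓ ^ n) b) := by
  have e1 : conv a b = ∑ A : ConjClasses G, ∑ B : ConjClasses G,
      (a (Quotient.out A) * b (Quotient.out B)) • conv (ic A) (ic B) := by
    funext x
    rw [conv_bilin ha hb x]
    simp only [Finset.sum_apply, Pi.smul_apply, smul_eq_mul]
  have e2 : Wq ξ (ℓ ^ n) (conv a b) = ∑ A : ConjClasses G, ∑ B : ConjClasses G,
      a (Quotient.out A) * b (Quotient.out B) * Wq ξ (ℓ ^ n) (conv (ic A) (ic B)) := by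
    rw [e1, map_sum]
    refine Finset.sum_congr rfl fun A _ => ?_
    rw [map_sum]
    refine Finset.sum_congr rfl fun B _ => ?_
    rw [map_smul, smul_eq_mul]
  have e3 : Wq ξ (ℓ ^ n) a * Wq ξ (ℓ ^ n) b = ∑ A : ConjClasses G, ∑ B : ConjClasses G,
      a (Quotient.out A) * b (Quotient.out B) *
        ((omega (MonoidHom.id G) ξ (Quotient.out A)) ^ (ℓ ^ n) *
        (omega (MonoidHom.id G) ξ (Quotient.out B)) ^ (ℓ ^ n)) := by
    rw [Wq_apply, Wq_apply, Finset.sum_mul_sum]
    refine Finset.sum_congr rfl fun A _ => Finset.sum_congr rfl fun B _ => ?_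
    ring
  rw [e2, e3]
  apply Cong.sum
  intro A _
  apply Cong.sum
  intro B _
  exact (Wq_conv_ic hℓ hξ n A B).mul_left ((hai _).mul (hbi _))

end

theorem dzt (halg : AlgStmt) (hgal : GalStmt) (hpos : PosStmt) : DztStmt := by
  intro ℓ hp M hM hℓ G _ _ hop ξ hξ n
  classical
  have := Fintype.ofFinite G
  have := Fintype.ofFinite (ConjClasses G)
  have hMp : M.IsPrime := hM.isPrime
  have hcard : (Nat.card G : ℂ) = (Fintype.card G : ℂ) := by rw [Nat.card_eq_fintype_card]
  obtain ⟨p1, -, p3, p4⟩ := hpos ℓ M hℓ G hop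
  have hw : ∀ g, IsIntegral ℤ (omega (MonoidHom.id G) ξ g) := fun g => omega_integral _ hξ.1 g
  obtain ⟨χ, hχ, hW⟩ := halg M G (Wq ξ (ℓ ^ n))
    (fun a _ hai => Wq_integral hξ.1 _ hai)
    (fun a b ha hai hb hbi => Wq_conv hℓ hξ.1 n ha hai hb hbi)
    (by
      intro a ha0 ha1
      have hcl : ∀ x y, a (y * x * y⁻¹) = a x := by
        intro x y
        by_cases hx : x = 1
        · subst hx; rw [mul_one, mul_inv_cancel]
        · rw [ha0 x hx, ha0]
          intro h
          apply hx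
          have := congrArg (fun z => y⁻¹ * z * y) h
          simpa [mul_assoc] using this
      rw [Wq_apply, Finset.sum_eq_single_of_mem (ConjClasses.mk (1 : G)) (Finset.mem_univ _)]
      · have h1 : (Quotient.out (ConjClasses.mk (1 : G)) : G) = 1 := by
          have h2 : IsConj (Quotient.out (ConjClasses.mk (1 : G))) (1 : G) :=
            ConjClasses.mk_eq_mk_iff_isConj.1 (mk_out _)
          exact isConj_one_left.1 h2
        rw [h1, ha1, one_mul]
        have h3 : omega (MonoidHom.id G) ξ 1 = 1 :=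
          omega_one (i := MonoidHom.id G) (fun _ _ h => h) (irr_one_ne hξ.1)
        rw [h3, one_pow]
        exact Cong.refl _
      · intro K _ hK
        rw [ha0, zero_mul]
        intro h
        apply hK
        rw [← h, mk_out])
  -- the label of `χ`
  have htw : IsTw ℓ M n ξ χ := by
    intro g
    unfold labF
    have h1 := hW (ic (ConjClasses.mk g)) (ic_class _) (ic_integral _)
    rw [Wq_ic, val_ic _ hχ] at h1
    have hout : IsConj (Quotient.out (ConjClasses.mk g)) g :=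
      ConjClasses.mk_eq_mk_iff_isConj.1 (mk_out _)
    have h2 : ∀ η : G → ℂ, omega (MonoidHom.id G) η (Quotient.out (ConjClasses.mk g)) =
        omega (MonoidHom.id G) η g := by
      intro η
      rw [omega_eq, omega_eq]
      congr 1
      refine Finset.sum_congr rfl fun x _ => ?_
      have h3 : IsConj (Quotient.out (ConjClasses.mk g)) ((MonoidHom.id G) x) ↔
          IsConj g ((MonoidHom.id G) x) :=
        ⟨fun h => hout.symm.trans h, fun h => hout.trans h⟩
      by_cases h4 : IsConj g ((MonoidHom.id G) x)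
      · rw [if_pos h4, if_pos (h3.2 h4)]
      · rw [if_neg h4, if_neg (fun h => h4 (h3.1 h))]
    rw [h2, h2] at h1
    rw [← red_pow (hw g)]
    exact ((red_eq_iff ((hw g).pow _) (omega_integral _ hχ g)).2 h1).symm
  -- `χ` has defect zero
  have hdom : IsDomain (FF M) := Ideal.Quotient.isDomain M
  have hDZ : ¬ LargeDefect ℓ M χ := by
    intro hL
    obtain ⟨g, hg, hne⟩ := p4 ξ hξ.1 hξ.2
    have h1 := p3 χ hχ hL g hg
    rw [htw g] at h1
    exact hne (pow_eq_zero_iff (pow_ne_zero _ hp.out.ne_zero) |>.1 h1)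
  -- the Galois conjugate
  obtain ⟨ψ, hψ, hdeg, hlab⟩ := hgal ℓ M hℓ G ξ hξ.1 n
  have hcod : ¬ Cong M ((Fintype.card G : ℂ) / ψ 1) 0 := by
    intro h
    apply hξ.2
    rw [p1 ξ hξ.1, hcard, ← hdeg]
    exact H83.red_zero_of_cong h
  have heq : χ = ψ := by
    by_contra hne
    apply hcod
    rw [codeg_eq hψ]
    have h1 := sum_classes (irr_one_ne hχ) (fun g h => irr_conj hψ g h)
    rw [irr_orth_ne hχ hψ hne] at h1
    have h2 : ∑ K : ConjClasses G,
        omega (MonoidHom.id G) χ (Quotient.out K) * ψ (Quotient.out K)⁻¹ = 0 := by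
      rcases mul_eq_zero.1 h1.symm with h3 | h3
      · exact absurd h3 (irr_one_ne hχ)
      · exact h3
    rw [← h2]
    apply Cong.sum
    intro K _
    by_cases hd : ℓ ∣ Nat.card (Subgroup.centralizer {Quotient.out K} : Subgroup G)
    · have h3 : Cong M ((Fintype.card G : ℂ) / ψ 1 * ψ (Quotient.out K)⁻¹) 0 := by
        rw [H83.codeg_mul hψ, H83.centralizer_inv_eq]
        exact (cong_nat_of_dvd hℓ hd).mul_zero_right (omega_integral _ hψ _)
      have h4 : Cong M (ψ (Quotient.out K)⁻¹) 0 := by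
        rcases cong_mul_zero (H83.codeg_integral hψ) (irr_integral hψ _) h3 with h5 | h5
        · exact absurd h5 hcod
        · exact h5
      exact (h4.mul_zero_left (omega_integral _ hψ _)).trans
        (h4.mul_zero_left (omega_integral _ hχ _)).symm
    · have h3 := hlab _ hd
      rw [← htw] at h3
      exact ((red_eq_iff (omega_integral _ hψ _) (omega_integral _ hχ _)).1 h3).mul_right
        (irr_integral hψ _)
  exact ⟨χ, ⟨hχ, hDZ⟩, by rw [heq, hdeg], htw⟩

end Pool.Agent.Helper79_WRA.H47
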