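import Pool.Agent.Helper79_WRA.StmtB
import Pool.Agent.Helper13_WRA.Label

/-!
WRA, module RESTR: for a character of the stabiliser of a chain, only the centraliser of the
chain matters modulo `M`.
-/

open scoped BigOperators

noncomputable section

namespace Pool.Agent.Helper79_WRA.H47

open Pool.Agent.Helper51_AWC Pool.Agent.Helper79_WRA

theorem val_sub {H : Type} [Group H] [Finite H] (F F' a : H → ℂ) :
    val (fun x => F x - F' x) a = val F a - val F' a := by
  have := Fintype.ofFinite H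
  rw [val_eq, val_eq, val_eq, ← sub_div, ← Finset.sum_sub_distrib]
  congr 1
  exact Finset.sum_congr rfl fun t _ => by ring

theorem conj_comm_iff {X : Type} [Group X] {D : Subgroup X} {h x : X}
    (hh : h ∈ Subgroup.normalizer (D : Set X)) :
    (∀ y ∈ D, y * (h * x * h⁻¹) = h * x * h⁻¹ * y) ↔ ∀ y ∈ D, y * x = x * y := by
  rw [Subgroup.mem_normalizer_iff] at hh
  constructor
  · intro H y hy
    have h1 := H (h * y * h⁻¹) ((hh y).1 hy)
    have h2 : h * (y * x) * h⁻¹ = h * (x * y) * h⁻¹ := by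
      calc h * (y * x) * h⁻¹ = h * y * h⁻¹ * (h * x * h⁻¹) := by group
        _ = h * x * h⁻¹ * (h * y * h⁻¹) := h1
        _ = h * (x * y) * h⁻¹ := by group
    exact mul_left_cancel (mul_right_cancel h2)
  · intro H y hy
    have h0 : h⁻¹ * y * h ∈ D := by
      rw [hh]
      have : h * (h⁻¹ * y * h) * h⁻¹ = y := by group
      rw [this]; exact hy
    have h1 := H _ h0
    calc y * (h * x * h⁻¹) = h * ((h⁻¹ * y * h) * x) * h⁻¹ := by group
      _ = h * (x * (h⁻¹ * y * h)) * h⁻¹ := by rw [h1]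
      _ = h * x * h⁻¹ * y := by group

open Classical in
theorem restr (hlabel : LabelStmt) (hkill : KillStmt) : RestrStmt := by
  intro ℓ _ M _ hℓ X _ _ d hp hc a ha Φ hΦ hI
  rcases d.eq_empty_or_nonempty with h0 | hne
  · subst h0
    have e : (fun x => if ∀ D ∈ (∅ : Finset (Subgroup X)), ∀ y ∈ D, y * x = x * y then Φ x
        else 0) = Φ := by
      funext x
      rw [if_pos]
      intro D hD
      exact absurd hD (Finset.notMem_empty _)
    rw [e]
    exact Cong.refl _
  · obtain ⟨D, hD, hmax⟩ := H13.exists_max hne hc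
    obtain ⟨H, hH⟩ : ∃ H : Subgroup X, H = Subgroup.normalizer (D : Set X) := ⟨_, rfl⟩
    have hDH : D ≤ H := by rw [hH]; exact Subgroup.le_normalizer
    have hle : ∀ E ∈ d, E ≤ H := fun E hE => (hmax E hE).trans hDH
    have hstle : stab d ≤ H := by
      intro g hg
      rw [hH, mem_normalizer_iff_conjS]
      exact mem_stab.1 hg D hD
    obtain ⟨d', -, hd2, hd3, hd4⟩ := H13.exists_small_chain hp hc hD H hH hle
    have ha' : (fun t : H => a t) ∈ IrrS (stab d') := by
      rw [hd4]
      refine ⟨fun t ht => ha.1 _ fun h => ht (Subgroup.mem_subgroupOf.2 h), ?_⟩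
      exact irr_comp_equiv (Subgroup.subgroupOfEquivOfLe hstle) ha.2
    obtain ⟨ϑ, hϑ, hlab⟩ := hlabel ℓ M hℓ H d' hd2 hd3 (fun t : H => a t) ha'
    -- the restricted function
    obtain ⟨Ψ, hΨ⟩ : ∃ Ψ : X → ℂ, Ψ = fun x =>
      if ∀ D ∈ d, ∀ y ∈ D, y * x = x * y then Φ x else 0 := ⟨_, rfl⟩
    have hcond : ∀ x, (∀ E ∈ d, ∀ y ∈ E, y * x = x * y) ↔ ∀ y ∈ D, y * x = x * y := by
      intro x
      exact ⟨fun h => h D hD, fun h E hE y hy => h y (hmax E hE hy)⟩
    have hΨ1 : ∀ x, (∀ y ∈ D, y * x = x * y) → Ψ x = Φ x := by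
      intro x hx
      rw [hΨ]
      exact if_pos ((hcond x).2 hx)
    have hΨ2 : ∀ x, ¬ (∀ y ∈ D, y * x = x * y) → Ψ x = 0 := by
      intro x hx
      rw [hΨ]
      exact if_neg (fun h => hx ((hcond x).1 h))
    rw [← hΨ]
    have hΨc : ∀ x y : H, Ψ ((y * x * y⁻¹ : H) : X) = Ψ x := by
      intro x y
      have hy : (y : X) ∈ Subgroup.normalizer (D : Set X) := by rw [← hH]; exact y.2
      have e : ((y * x * y⁻¹ : H) : X) = (y : X) * x * (y : X)⁻¹ := by push_cast; rfl
      by_cases h : ∀ z ∈ D, z * (x : X) = x * z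
      · rw [hΨ1 _ h, e, hΨ1 _ ((conj_comm_iff hy).2 h), hΦ]
      · rw [hΨ2 _ h, e, hΨ2 _ (fun h' => h ((conj_comm_iff hy).1 h'))]
    have hΦc : ∀ x y : H, Φ ((y * x * y⁻¹ : H) : X) = Φ x := by
      intro x y
      have e : ((y * x * y⁻¹ : H) : X) = (y : X) * x * (y : X)⁻¹ := by push_cast; rfl
      rw [e, hΦ]
    have hΨI : ∀ x, IsIntegral ℤ (Ψ x) := by
      intro x
      by_cases h : ∀ z ∈ D, z * x = x * z
      · rw [hΨ1 _ h]; exact hI x
      · rw [hΨ2 _ h]; exact isIntegral_zero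
    have hz : ∀ t, t ∉ H → a t = 0 := fun t ht => ha.1 t fun h => ht (hstle h)
    have ha1 : (fun t : H => a t) 1 ≠ 0 := by
      have h1 := IrrS_one_ne ha'
      exact h1
    have hom : ∀ g : H, Cong M (omega (MonoidHom.id H) (fun t : H => a t) g)
        (omega (MonoidHom.id H) ϑ g) := by
      intro g
      exact (red_eq_iff (omega_IrrS_integral ha' g) (omega_integral _ hϑ g)).1
        (congrFun hlab g)
    have k1 : Cong M (val Φ a) (val (fun t : H => Φ t) ϑ) := by
      rw [← H13.val_restrict' Φ a hz]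
      exact H13.val_cong hΦc (fun x => hI _) ha1 (irr_one_ne hϑ) hom
    have k2 : Cong M (val Ψ a) (val (fun t : H => Ψ t) ϑ) := by
      rw [← H13.val_restrict' Ψ a hz]
      exact H13.val_cong hΨc (fun x => hΨI _) ha1 (irr_one_ne hϑ) hom
    have k3 : Cong M (val (fun t : H => Φ t - Ψ t) ϑ) 0 := by
      apply hkill ℓ M hℓ H (D.subgroupOf H) ?_ ?_ ϑ hϑ (fun t : H => Φ t - Ψ t)
      · intro x y
        show Φ ((y * x * y⁻¹ : H) : X) - Ψ ((y * x * y⁻¹ : H) : X) = Φ x - Ψ x
        rw [hΦc, hΨc]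
      · intro x
        exact (hI _).sub (hΨI _)
      · intro x hx
        by_contra hcon
        push Not at hcon
        apply hx
        have : ∀ z ∈ D, z * (x : X) = x * z := by
          intro z hz
          have := hcon ⟨z, hDH hz⟩ (Subgroup.mem_subgroupOf.2 hz)
          exact congrArg Subtype.val this
        show Φ x - Ψ x = 0
        rw [hΨ1 _ this, sub_self]
      · subst hH
        exact Subgroup.normal_in_normalizer
      · exact (hp D hD).comap_of_injective H.subtype H.subtype_injective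
    rw [val_sub (fun t : H => Φ t) (fun t : H => Ψ t) ϑ] at k3
    have k4 : Cong M (val (fun t : H => Φ t) ϑ) (val (fun t : H => Ψ t) ϑ) :=
      cong_iff_sub.2 k3
    exact k1.trans (k4.trans k2.symm)

end Pool.Agent.Helper79_WRA.H47
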